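import Pool.Agent.Q177.EF.Ball

/-!
# Vortex lines and the energy: regions of coherent vorticity cannot collapse slowly

The vortex lines of a solution of the Euler equations, parametrized by `γ' = ω(t, γ)`, are carried
along by the flow together with their parameter. Hence the displacement `D_s(t, x) = Φ_s(x) - x`
along the vortex line through `x` up to the parameter `s` changes only by the velocities of its two
end points, and since the energy is conserved and both the flow of `u` and the vortex flow preserve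
the volume, its norm in `L²(𝕋³)` is Lipschitz continuous in time, with the constant `2 ‖u₀‖₂`, up to
and including a singular time. Localized to a set `E` of points this bounds the mean of the vorticity
over the vortex segments with parameter `s` starting in `E`.

So a solution cannot become singular at the time `T` if for `t` near `T` there is a set `E(t)` of
vortex segments along which the mean vorticity is comparable with the maximal vorticity and whose
mean displacement is at least `C ‖u₀‖₂ (T - t) / |E|^(1/2)`. In particular, if near `T` there is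
always a ball of radius `ρ(t) ≥ (C ‖u₀‖₂ (T - t))^(2/5)` in which the component of the vorticity in
one direction is comparable with the maximal vorticity, there is no singularity: regions of coherent
vorticity must collapse at least at the rate `(T - t)^(2/5)`. No assumption on the velocity, on the
curvature of vortex lines or on the motion of the balls is made.
-/

set_option autoImplicit false

open MeasureTheory Set
open scoped Topology

namespace Pool.Agent.Results.MP_b0497c_an.CoherentRegions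

open Pool.Agent.H708R2.EulerSign Pool.Agent.H708R2.EulerTypeI Q177.EF

/-- The square of the norm of `v` in `L²(𝕋³)`. -/
noncomputable def energy (v : V → V) : ℝ := ∫ x in cell 0, nrm (v x) ^ 2

lemma energy_eq (u : ℝ → V → V) : energy (u 0) = En u 0 := by
  unfold energy En
  rw [cell_zero]
  simp only [nrm_sq]

/-- Let `(u, p)` be a `C²` periodic solution of the Euler equations on `[0, T)`.
(1) For all `t ∈ (0, T)` the vortex flow `Φ` of `u(t)` exists, and the norm of `Φ_s(x) - x` in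
`L²(𝕋³)` is, for every parameter `s`, Lipschitz continuous in time with the constant `2 ‖u₀‖₂`.
(2) The mean of `|Φ_s(x) - x|` at the time `t₂` over a set `E` in a period cell is at most
`|s| sup |ω(t₁)| + 2 (t₂ - t₁) ‖u₀‖₂ / |E|^(1/2)` for all `t₁ ≤ t₂`.
(3) Let `0 < c ≤ 1`. If for all `t` near `T` there is a set `E` and a parameter `s > 0` such that the
mean of `|Φ_s(x) - x|` over `E` is at least `c s sup |ω(t)|` and at least
`(8 / c) ‖u₀‖₂ (T - t) / |E|^(1/2)` (or the vorticity is at most `(T - t)^(-1/2)`), then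
`sup |ω(t)| ≤ C (T - t)^(-a)` with some `a < 1`, and the Beale-Kato-Majda integral is finite.
(4) The same holds if for all `t` near `T` there are a ball of radius `ρ ≤ π` with
`ρ^(5/2) ≥ (45 / c²) ‖u₀‖₂ (T - t)` and a unit vector `e` such that `e · ω(t) ≥ c sup |ω(t)|` in the
ball (or the vorticity is at most `(T - t)^(-1/2)`). -/
theorem result (T : ℝ) (hT : 0 < T) (u : ℝ → V → V) (p : ℝ → V → ℝ) (h : IsC2Solution T u p) :
    ((∀ t ∈ Ioo 0 T, ∃ Φ, VortexFlow (u t) Φ) ∧
      ∀ t₁ ∈ Ioo 0 T, ∀ t₂ ∈ Ioo 0 T, ∀ Φ₁ Φ₂ : ℝ → V → V,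
        VortexFlow (u t₁) Φ₁ → VortexFlow (u t₂) Φ₂ → ∀ s : ℝ,
        |Real.sqrt (∫ x in cell 0, nrm (Φ₂ s x - x) ^ 2)
            - Real.sqrt (∫ x in cell 0, nrm (Φ₁ s x - x) ^ 2)|
          ≤ 2 * |t₂ - t₁| * Real.sqrt (energy (u 0))) ∧
    (∀ t₁ ∈ Ioo 0 T, ∀ t₂ ∈ Ioo 0 T, t₁ ≤ t₂ → ∀ Φ : ℝ → V → V, VortexFlow (u t₂) Φ →
      ∀ (s : ℝ) (z : V) (E : Set V), E ⊆ cell z → 0 < volume E →
        (∫ x in E, nrm (Φ s x - x)) / (volume E).toReal ≤ |s| * vmax (u t₁)
          + 2 * (t₂ - t₁) * Real.sqrt (energy (u 0)) / Real.sqrt (volume E).toReal) ∧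
    (∀ c : ℝ, 0 < c → c ≤ 1 →
      (∀ᶠ t in 𝓝[<] T, (T - t) ^ (-(1 / 2) : ℝ) < vmax (u t) →
        Coherent (u t) c (8 / c * Real.sqrt (energy (u 0)) * (T - t))) →
      (∃ C a : ℝ, a < 1 ∧ ∀ᶠ t in 𝓝[<] T, vmax (u t) ≤ C * (T - t) ^ (-a)) ∧ BKMFinite T u) ∧
    (∀ c : ℝ, 0 < c → c ≤ 1 →
      (∀ᶠ t in 𝓝[<] T, (T - t) ^ (-(1 / 2) : ℝ) < vmax (u t) →
        ∃ (x e : V) (ρ : ℝ), nrm e = 1 ∧ 0 < ρ ∧ ρ ≤ Real.pi ∧
          45 / c ^ 2 * Real.sqrt (energy (u 0)) * (T - t) ≤ ρ ^ (5 / 2 : ℝ) ∧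
          ∀ y, nrm (y - x) < ρ → c * vmax (u t) ≤ e ⬝ᵥ vort (u t) y) →
      (∃ C a : ℝ, a < 1 ∧ ∀ᶠ t in 𝓝[<] T, vmax (u t) ≤ C * (T - t) ^ (-a)) ∧
        BKMFinite T u) := by
  rw [energy_eq]
  have hper : ∀ t ∈ Ioo 0 T, ∀ Φ : ℝ → V → V, VortexFlow (u t) Φ → ∀ s,
      ∫ x in cell 0, nrm (Φ s x - x) ^ 2 = ∫ x in Dom, nrm (Φ s x - x) ^ 2 := by
    intro t ht Φ hΦ s
    rw [cell_zero]
  refine ⟨⟨fun t ht => exists_vflow h ht, ?_⟩, ?_, ?_, ?_⟩
  · intro t₁ h1 t₂ h2 Φ₁ Φ₂ hΦ₁ hΦ₂ s
    rw [hper t₁ h1 Φ₁ hΦ₁, hper t₂ h2 Φ₂ hΦ₂]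
    rcases le_total t₁ t₂ with hle | hle
    · rw [abs_of_nonneg (show 0 ≤ t₂ - t₁ by linarith)]
      exact l2_est h h1.1 hle h2.2 hΦ₁ hΦ₂ s
    · rw [abs_of_nonpos (show t₂ - t₁ ≤ 0 by linarith), neg_sub, abs_sub_comm]
      exact l2_est h h2.1 hle h1.2 hΦ₂ hΦ₁ s
  · intro t₁ h1 t₂ h2 hle Φ hΦ s z E hEz hE0
    have hvol : volume E ≠ ⊤ := ((measure_mono hEz).trans_lt (cell_lt_top z)).ne
    have hm0 : 0 < (volume E).toReal := ENNReal.toReal_pos hE0.ne' hvol
    have hsm : 0 < Real.sqrt (volume E).toReal := Real.sqrt_pos.2 hm0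
    have key := set_est h h1.1 hle h2.2 hΦ s hEz
    rw [div_le_iff₀ hm0, add_mul]
    refine key.trans (le_of_eq ?_)
    congr 1
    have h3 : Real.sqrt (volume E).toReal * Real.sqrt (volume E).toReal = (volume E).toReal :=
      Real.mul_self_sqrt hm0.le
    rw [div_mul_eq_mul_div, eq_div_iff hsm.ne', mul_assoc, h3]
  · intro c hc hc1 hyp
    exact criterion hT h hc hc1 hyp
  · intro c hc hc1 hyp
    refine criterion hT h hc hc1 ?_
    filter_upwards [hyp, Ioo_mem_nhdsLT hT] with t h1 h2 h3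
    obtain ⟨x, e, ρ, he, hρ, hρπ, hκ, hco⟩ := h1 h3
    have hM : 0 < vmax (u t) := lt_of_le_of_lt (Real.rpow_nonneg (by linarith [h2.2]) _) h3
    refine coherent_of_ball h h2 hc hM he hρ hρπ ?_ hco
    refine le_trans (le_of_eq ?_) hκ
    field_simp

end Pool.Agent.Results.MP_b0497c_an.CoherentRegions
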