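import Pool.Agent.Q177.EF.Seg

/-!
# One coherent vortex line segment at each time excludes a singularity

The criteria of Deng, Hou and Yu exclude a singularity of the Euler equations at the time `T` by
conditions on a family of segments of vortex lines: the segment at the time `t` contains points of
nearly maximal vorticity, it is contained in the segment of the earlier time carried along by the
flow, its curvature and the variation of the vorticity along it are controlled, and it is long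
compared with the velocity. Here the segments at different times need not have anything to do with
each other, and all conditions on curvature and on the variation of the vorticity are replaced by
one: the distance of the end points of the segment with the parameter `s` is at least `c s` times
the maximal vorticity, i.e. the mean of the vorticity vector along the segment is comparable with the
maximal vorticity. If this distance is large compared with the integral of the oscillation of the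
velocity over the time interval `(T - lam (T - t), t)`, there is no singularity at `T`.

Proof: a vortex line `γ' = ω(t, γ)` is carried along by the flow together with its parameter, so
that the displacement of two of its points changes at most by the integral of the oscillation of
the velocity; at the earlier time it is at most `s` times the maximal vorticity of that time.
-/

set_option autoImplicit false

open MeasureTheory Set
open scoped Topology

namespace Pool.Agent.Results.MP_b0497c_an.CoherentSegment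

open Pool.Agent.H708R2.EulerSign Pool.Agent.H708R2.EulerTypeI Q177.EF

/-- The vortex line of `v` through `x` has a segment, starting in `x` and with the parameter `s > 0`,
whose end points have a distance at least `D` and along which the mean of the vorticity vector has
at least `c` times the size of the maximal vorticity. -/
def HasSegment (v : V → V) (c D : ℝ) : Prop :=
  ∃ (γ : ℝ → V) (s : ℝ), 0 < s ∧ (∀ r, HasDerivAt γ (vort v (γ r)) r) ∧
    c * vmax v ≤ nrm ((1 / s) • (γ s - γ 0)) ∧ D ≤ nrm (γ s - γ 0)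

lemma exists_flow_of_line {T t : ℝ} {u : ℝ → V → V} {p : ℝ → V → ℝ} (h : IsC2Solution T u p)
    (ht : t ∈ Ioo 0 T) {γ : ℝ → V} (hγ : ∀ r, HasDerivAt γ (vort (u t) (γ r)) r) :
    ∃ Φ, VortexFlow (u t) Φ ∧ ∀ s, Φ s (γ 0) = γ s := by
  obtain ⟨Φ, hΦ⟩ := exists_vflow h ht
  refine ⟨Φ, hΦ, fun s => ?_⟩
  obtain ⟨K, hK⟩ := (fld_at h ht).lip
  have hKb : LipschitzWith K (vort (u t)) := by
    intro x y
    have := hK (0, x) (0, y)
    simpa [Prod.edist_eq] using this
  have h1 : (fun s => Φ s (γ 0)) = γ := by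
    refine ODE_solution_unique_univ (v := fun _ => vort (u t)) (s := fun _ => univ) (K := K)
      (t₀ := 0) (fun t => hKb.lipschitzOnWith) (fun s => ⟨hΦ.2 s _, trivial⟩)
      (fun s => ⟨hγ s, trivial⟩) (hΦ.1 _)
  exact congrFun h1 s

lemma seg_iff {T t : ℝ} {u : ℝ → V → V} {p : ℝ → V → ℝ} (h : IsC2Solution T u p)
    (ht : t ∈ Ioo 0 T) {c D : ℝ} (hs : HasSegment (u t) c D) :
    ∃ (s : ℝ) (Φ : ℝ → V → V) (x : V), 0 < s ∧ VortexFlow (u t) Φ ∧
      c * (s * vmax (u t)) ≤ nrm (Φ s x - x) ∧ D ≤ nrm (Φ s x - x) := by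
  obtain ⟨γ, s, hs0, hγ, h1, h2⟩ := hs
  obtain ⟨Φ, hΦ, hΦγ⟩ := exists_flow_of_line h ht hγ
  refine ⟨s, Φ, γ 0, hs0, hΦ, ?_, ?_⟩
  · rw [hΦγ]
    rw [nrm_smul, abs_of_pos (by positivity), one_div, inv_mul_eq_div, le_div_iff₀ hs0] at h1
    linarith
  · rw [hΦγ]; exact h2

/-- Let `(u, p)` be a `C²` periodic solution of the Euler equations on `[0, T)`.
(1) Let `0 < t₁ ≤ t₂ < T`, and let `U(t)` be an integrable bound of the oscillation
`|u(t, x) - u(t, y)|` for `t ∈ [t₁, t₂]`. For every vortex line `γ₂` of `u(t₂)` there is a vortex line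
`γ₁` of `u(t₁)` such that the displacements `γ₂(s) - γ₂(0)` and `γ₁(s) - γ₁(0)` differ by at most
`∫ U dt` for all parameters `s`.
(2) Let `0 < c`, `0 < θ`, `1 < lam`, `c θ lam > 1`. If for all `t` near `T` there is a vortex
segment with mean vorticity at least `c sup |ω(t)|` and the distance of its end points at least `D(t)`
(or the vorticity is at most `(T - t)^(-1/2)`), where
`∫ U dτ` over `(T - lam (T - t), t)` is at most `(1 - θ) D(t)`, then
`sup |ω(t)| ≤ C (T - t)^(-a)` with some `a < 1`, and the Beale-Kato-Majda integral is finite.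
(3) In particular this holds if `|u(t, x) - u(t, y)| ≤ K (T - t)^(-A)` and, for `t` near `T`, there
is a vortex segment with mean vorticity at least `c sup |ω(t)|` and the distance of its end points at
least `k (T - t)^B`, where `A + B < 1`, with arbitrary constants `K`, `k > 0` and `0 < c ≤ 1`. -/
theorem result (T : ℝ) (hT : 0 < T) (u : ℝ → V → V) (p : ℝ → V → ℝ) (h : IsC2Solution T u p) :
    (∀ t₁ t₂ : ℝ, 0 < t₁ → t₁ ≤ t₂ → t₂ < T → ∀ U : ℝ → ℝ, IntervalIntegrable U volume t₁ t₂ →
      (∀ t ∈ Icc t₁ t₂, ∀ x y, nrm (u t x - u t y) ≤ U t) →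
      ∀ γ₂ : ℝ → V, (∀ r, HasDerivAt γ₂ (vort (u t₂) (γ₂ r)) r) →
        ∃ γ₁ : ℝ → V, (∀ r, HasDerivAt γ₁ (vort (u t₁) (γ₁ r)) r) ∧
          ∀ s, nrm ((γ₂ s - γ₂ 0) - (γ₁ s - γ₁ 0)) ≤ ∫ τ in t₁..t₂, U τ) ∧
    (∀ U D : ℝ → ℝ, (∀ a b, 0 < a → a ≤ b → b < T → IntervalIntegrable U volume a b) →
      (∀ t ∈ Ioo 0 T, ∀ x y, nrm (u t x - u t y) ≤ U t) →
      ∀ c θ lam : ℝ, 0 < c → 0 < θ → θ ≤ 1 → 1 < lam → 1 < c * θ * lam →
      (∀ᶠ t in 𝓝[<] T, (T - t) ^ (-(1 / 2) : ℝ) < vmax (u t) →
        HasSegment (u t) c (D t) ∧ ∫ τ in (T - lam * (T - t))..t, U τ ≤ (1 - θ) * D t) →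
      (∃ C a : ℝ, a < 1 ∧ ∀ᶠ t in 𝓝[<] T, vmax (u t) ≤ C * (T - t) ^ (-a)) ∧ BKMFinite T u) ∧
    (∀ K A k B c : ℝ, 0 ≤ A → 0 < k → A + B < 1 → 0 < c → c ≤ 1 →
      (∀ t ∈ Ioo 0 T, ∀ x y, nrm (u t x - u t y) ≤ K * (T - t) ^ (-A)) →
      (∀ᶠ t in 𝓝[<] T, (T - t) ^ (-(1 / 2) : ℝ) < vmax (u t) →
        HasSegment (u t) c (k * (T - t) ^ B)) →
      (∃ C a : ℝ, a < 1 ∧ ∀ᶠ t in 𝓝[<] T, vmax (u t) ≤ C * (T - t) ^ (-a)) ∧
        BKMFinite T u) := by
  refine ⟨?_, ?_, ?_⟩
  · intro t₁ t₂ h0 h12 h2 U hUi hU γ₂ hγ₂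
    have h1I : t₁ ∈ Ioo 0 T := ⟨h0, h12.trans_lt h2⟩
    have h2I : t₂ ∈ Ioo 0 T := ⟨h0.trans_le h12, h2⟩
    obtain ⟨Φ₁, hΦ₁⟩ := exists_vflow h h1I
    obtain ⟨Φ₂, hΦ₂, hγ⟩ := exists_flow_of_line h h2I hγ₂
    obtain ⟨y, hy⟩ := disp_pt h h0 h12 h2 hΦ₁ hΦ₂ hUi hU (γ₂ 0)
    refine ⟨fun r => Φ₁ r y, fun r => hΦ₁.2 r y, fun s => ?_⟩
    have := hy s
    rw [hγ] at this
    simp only [hΦ₁.1]
    exact this
  · intro U D hUi hU c θ lam hc hθ hθ1 hlam hcl hyp
    refine seg_criterion hT h hUi hU hc hθ hlam hcl ?_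
    filter_upwards [hyp, Ioo_mem_nhdsLT hT] with t h1 h2 h3
    obtain ⟨h4, h5⟩ := h1 h3
    obtain ⟨s, Φ, x, hs, hΦ, h6, h7⟩ := seg_iff h h2 h4
    exact ⟨s, Φ, x, hs, hΦ, h6, h5.trans (mul_le_mul_of_nonneg_left h7 (by linarith))⟩
  · intro K A k B c hA hk hAB hc hc1 hU hyp
    refine seg_rates hT h hA hk hAB hU hc hc1 ?_
    filter_upwards [hyp, Ioo_mem_nhdsLT hT] with t h1 h2 h3
    exact seg_iff h h2 (h1 h3)

end Pool.Agent.Results.MP_b0497c_an.CoherentSegment
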