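import Pool.Agent.Q177.OS.Crit

/-!
# One-sided twist of the vorticity at one maximum point: criteria by the energy only

The criterion of Constantin, Fefferman and Majda excludes a singularity of the Euler equations if
the direction of the vorticity is Lipschitz in space (with a bound integrable in the square) in the
region of high vorticity and the velocity is bounded there. Here nothing is assumed about the
velocity, the condition is imposed at one maximum point of the vorticity for each time, and only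
from one side: in a ball of radius `ρ(t)` about the maximum point `x` the vorticity stays in a cone
about the direction `ξ = ω(x) / |ω(x)|`, and the kernel `D(z, ω(x + z), ξ)` with which the vorticity
at `x + z` stretches the vorticity at `x` is at most `|ω(x + z)| |z| / ρ`; contributions which
compress the vorticity at `x` may be arbitrarily large. The stretching rate at such a point is at
most `K (‖u‖ ρ^(-5/2) + ρ^(-1) ‖u‖^(2/5) |ω|^(3/5))`, where `‖u‖` is the `L²` norm.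

Proof: the weighted means over balls of radius `r` about `x` of the rate `ξ · ∇u ξ` change with `r`
by an explicit integral, whose integrand has the form `(ξ · z)(ω(x + z) · (z × ξ))`; by the cone
condition it is controlled by the mean of `ω · ξ`, i.e. by the mean of the velocity over the
ball divided by `r²`; now take the energy for large balls and the maximal vorticity for small ones.
-/

set_option autoImplicit false

open MeasureTheory Set
open scoped Topology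

namespace Pool.Agent.Results.MP_b0497c_an.DirectionEnergy

open Pool.Agent.H708R2.EulerSign Pool.Agent.H708R2.EulerTypeI Pool.Agent.W786.Dir
  Pool.Agent.W786.Max Q177.EF Q177.OS

/-- In the ball of radius `ρ` about `x` the vorticity `ω(y)` stays in the cone
`ω(y) · ξ ≥ a |ω(y)|` about the direction `ξ = ω(x) / |ω(x)|`, and
`((y - x) · ξ) (ω(y) · ((y - x) × ξ)) ≥ - |ω(y)| |y - x|³ / ρ`, a bound from one side. -/
def OneSided (v : V → V) (x : V) (ρ a : ℝ) : Prop :=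
  ∀ y, nrm (y - x) < ρ → a * nrm (vort v y) ≤ vort v y ⬝ᵥ dirv v x ∧
    -(nrm (vort v y) * nrm (y - x) ^ 3 / ρ) ≤
      ((y - x) ⬝ᵥ dirv v x) * (vort v y ⬝ᵥ cross (y - x) (dirv v x))

/-- There is an absolute constant `K` such that for every `C²` periodic solution `(u, p)` of the
Euler equations on `[0, T)`, `E > 0` with `∫ |u₀|² ≤ E²` over the period cell, and `0 < a ≤ 1`:
(1) At a maximum point `x` of `|ω(t)|` with `OneSided (u t) x ρ a`, `ρ ≤ π`, `ω(t, x) ≠ 0`, the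
stretching rate is at most `K / a (E ρ^(-5/2) + ρ^(-1) E^(2/5) |ω(t, x)|^(3/5))`.
(2) If `ρ^(-5/2) + ρ^(-1) (sup |ω|)^(3/5)` is integrable on `(0, T)` for some function
`0 < ρ(t) ≤ π`, and for almost every `t` there is a maximum point `x` of `|ω(t)|` with
`OneSided (u t) x (ρ t) a` (or `|ω(t, x)| ≤ Λ(t)` with an increasing integrable function `Λ ≥ 0`), then
the Beale-Kato-Majda integral is finite.
(3) This is so if `sup |ω| ≤ C (T - t)^(-m)` and `ρ(t) ≥ k (T - t)^g` near `T`, with `k > 0`,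
`0 ≤ g < 2/5` and `3/5 m + g < 1` (and `Λ(t) = (T - t)^(-1/2)`).
(4) In the case `sup |ω| ≤ C / (T - t)`, `C ≥ 1` the borderline `g = 2/5` is admitted:
if for `t` near `T` there is a maximum point `x` with `OneSided (u t) x (L (E (T - t))^(2/5)) a`
(or `|ω(t, x)| ≤ (T - t)^(-1/2)`), where `L ≥ 1` and `L ≥ K / a C^(3/5)`, then
`sup |ω| ≤ C' (T - t)^(-1/2)` and the Beale-Kato-Majda integral is finite. -/
theorem result : ∃ K : ℝ, 0 < K ∧
    ∀ (T : ℝ), 0 < T → ∀ (u : ℝ → V → V) (p : ℝ → V → ℝ), IsC2Solution T u p →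
    ∀ E : ℝ, 0 < E → En u 0 ≤ E ^ 2 → ∀ a : ℝ, 0 < a → a ≤ 1 →
    (∀ t ∈ Ioo 0 T, ∀ x, IsMaxPt u t x → vort (u t) x ≠ 0 → ∀ ρ : ℝ, 0 < ρ → ρ ≤ Real.pi →
      OneSided (u t) x ρ a →
      stretch (u t) x ≤ K / a * (E * ρ ^ (-(5 / 2) : ℝ)
        + ρ⁻¹ * E ^ (2 / 5 : ℝ) * nrm (vort (u t) x) ^ (3 / 5 : ℝ))) ∧
    (∀ ρ Λ : ℝ → ℝ,
      IntegrableOn (fun t => ρ t ^ (-(5 / 2) : ℝ) + (ρ t)⁻¹ * vmax (u t) ^ (3 / 5 : ℝ))
        (Ioo 0 T) → (∀ t ∈ Ioo 0 T, 0 < ρ t ∧ ρ t ≤ Real.pi) →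
      MonotoneOn Λ (Ioo 0 T) → IntegrableOn Λ (Ioo 0 T) → (∀ t ∈ Ioo 0 T, 0 ≤ Λ t) →
      (∀ᵐ t, t ∈ Ioo 0 T → ∃ x, IsMaxPt u t x ∧
        (Λ t < nrm (vort (u t) x) → OneSided (u t) x (ρ t) a)) → BKMFinite T u) ∧
    (∀ C m k g : ℝ, 0 < C → 0 < k → 0 ≤ g → g < 2 / 5 → 3 / 5 * m + g < 1 →
      (∀ᶠ t in 𝓝[<] T, vmax (u t) ≤ C * (T - t) ^ (-m)) →
      (∀ᶠ t in 𝓝[<] T, ∃ x, IsMaxPt u t x ∧
        ((T - t) ^ (-(1 / 2) : ℝ) < nrm (vort (u t) x) →
          ∃ ρ, k * (T - t) ^ g ≤ ρ ∧ OneSided (u t) x ρ a)) → BKMFinite T u) ∧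
    (∀ C L : ℝ, 1 ≤ C → 1 ≤ L → K / a * C ^ (3 / 5 : ℝ) ≤ L →
      (∀ᶠ t in 𝓝[<] T, vmax (u t) ≤ C / (T - t)) →
      (∀ᶠ t in 𝓝[<] T, ∃ x, IsMaxPt u t x ∧
        (1 / Real.sqrt (T - t) < nrm (vort (u t) x) →
          OneSided (u t) x (L * (E * (T - t)) ^ (2 / 5 : ℝ)) a)) →
      (∃ C' : ℝ, ∀ᶠ t in 𝓝[<] T, ∀ x, nrm (vort (u t) x) ≤ C' / Real.sqrt (T - t)) ∧
        BKMFinite T u) := by
  refine ⟨4 * Ken, by linarith [Ken_pos], fun T hT u p h E hE0 hEu a ha ha1 => ⟨?_, ?_, ?_, ?_⟩⟩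
  · intro t ht x hx hne ρ hρ hρπ hone
    have hK := Ken_pos
    have htI : t ∈ Ico 0 T := ⟨ht.1.le, ht.2⟩
    have hM : 0 < nrm (vort (u t) x) :=
      lt_of_le_of_ne (nrm_nonneg _) fun h0 => hne (nrm_eq_zero h0.symm)
    have h1 := rate_le (Pool.Agent.W786.Dir.slice_two h ht) (h.sol.periodic_u t htI)
      (h.sol.div_free t htI) nrm_dirv hρ hρπ ha ha1 hone hx hM hE0
      (by rw [En_int h htI]; exact hEu)
    have e1 : 0 < ρ ^ (-(5 / 2) : ℝ) := Real.rpow_pos_of_pos hρ _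
    have e2 : 0 < E ^ (2 / 5 : ℝ) := Real.rpow_pos_of_pos hE0 _
    have e3 : 0 < nrm (vort (u t) x) ^ (3 / 5 : ℝ) := Real.rpow_pos_of_pos hM _
    calc stretch (u t) x ≤ Ken / a * (E * ρ ^ (-(5 / 2) : ℝ)
          + ρ⁻¹ * (E ^ (2 / 5 : ℝ) * nrm (vort (u t) x) ^ (3 / 5 : ℝ))) := h1
      _ = Ken / a * (E * ρ ^ (-(5 / 2) : ℝ)
          + ρ⁻¹ * E ^ (2 / 5 : ℝ) * nrm (vort (u t) x) ^ (3 / 5 : ℝ)) := by ring
      _ ≤ 4 * Ken / a * (E * ρ ^ (-(5 / 2) : ℝ)
          + ρ⁻¹ * E ^ (2 / 5 : ℝ) * nrm (vort (u t) x) ^ (3 / 5 : ℝ)) := by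
        refine mul_le_mul_of_nonneg_right ?_ (by positivity)
        gcongr
        linarith
  · intro ρ Λ hρi hρ hΛ hΛi hΛ0 hyp
    exact int_criterion h ha ha1 hρi hΛ hΛi hΛ0 hρ hyp
  · intro C m k g hC hk hg0 hg hmg hM hyp
    exact rates hT h ha ha1 hC hk hg0 (by linarith) hmg hM hyp
  · intro C L hC hL1 hL hM hyp
    refine type_one_energy h ha ha1 hC hE0 hEu hL1 ?_ hT hM hyp
    calc 4 * (Ken / a) * C ^ (3 / 5 : ℝ) = 4 * Ken / a * C ^ (3 / 5 : ℝ) := by ring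
      _ ≤ L := hL

end Pool.Agent.Results.MP_b0497c_an.DirectionEnergy
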