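import Pool.Agent.Q177.OS.Vel

/-!
# One-sided Hölder twist and the oscillation of the velocity at one maximum point

The criterion of Constantin, Fefferman and Majda for the Euler equations asks for a velocity bound
and a Lipschitz bound of the direction of the vorticity in the region of large vorticity. Here the
condition is imposed in one ball of any radius `ρ > 0` about one maximum point `x` of the vorticity
for each time: the vorticity stays in a cone about `ξ = ω(x) / |ω(x)|`; the kernel with which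
`ω(x + z)` stretches the vorticity at `x` is at most `|ω(x + z)| (|z| / ρ)^α` from one side only
(contributions which compress the vorticity at `x` may be arbitrarily large); and
`|u(y) - u(x)| ≤ q ρ` in the ball. Only the number `q(t)` and the exponent `0 < α ≤ 1` enter: for
`α = 1` it suffices that `q` is integrable in time; for `0 < α < 1` that
`q + q^α (sup |ω|)^(1-α)` is integrable. In particular no singularity of Type I,
`sup |ω| ≤ C / (T - t)`, occurs if `q(t) ≤ k (T - t)^(-n)` with some `n < 1`, for every `α > 0`.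
-/

set_option autoImplicit false

open MeasureTheory Set
open scoped Topology

namespace Pool.Agent.Results.MP_b0497c_an.TwistVelocity

open Pool.Agent.H708R2.EulerSign Pool.Agent.H708R2.EulerTypeI Pool.Agent.W786.Dir
  Pool.Agent.W786.Max Q177.EF Q177.OS

/-- In a ball of some radius `ρ > 0` about `x`, with `ξ = ω(x) / |ω(x)|`: the velocity satisfies
`|v(y) - v(x)| ≤ q ρ`, the vorticity stays in the cone `ω(y) · ξ ≥ a |ω(y)|`, and
`((y - x) · ξ) (ω(y) · ((y - x) × ξ)) ≥ - |ω(y)| |y - x|² (|y - x| / ρ)^α`. -/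
def Tame (v : V → V) (x : V) (a α q : ℝ) : Prop :=
  ∃ ρ : ℝ, 0 < ρ ∧ ∀ y, nrm (y - x) < ρ → nrm (v y - v x) ≤ q * ρ ∧
    a * nrm (vort v y) ≤ vort v y ⬝ᵥ dirv v x ∧
    -(nrm (vort v y) * nrm (y - x) ^ 2 * (nrm (y - x) / ρ) ^ α) ≤
      ((y - x) ⬝ᵥ dirv v x) * (vort v y ⬝ᵥ cross (y - x) (dirv v x))

/-- There is an absolute constant `κ` such that for every `C²` periodic solution `(u, p)` of the
Euler equations on `[0, T)` and `0 < a ≤ 1`:
(1) At a maximum point `x` of `|ω(t)|` with `Tame (u t) x a 1 q` the stretching rate is at most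
`κ / a (q (1 + log (1 / δ)) + δ |ω(t, x)|)` for every `0 < δ ≤ 1`; with `Tame (u t) x a α q`,
`0 < α < 1`, `q > 0`, `ω(t, x) ≠ 0`, it is at most `κ / (a α (1 - α)) (q + q^α |ω(t, x)|^(1-α))`.
(2) If `q` is integrable on `(0, T)` and for almost every `t` some maximum point `x` of `|ω(t)|`
satisfies `Tame (u t) x a 1 (q t)` or `|ω(t, x)| ≤ Λ`, then
`|ω(t, ·)| ≤ exp ((2 + log K) exp (κ / a ∫₀ᵗ (1 + |q|)))` for every `K ≥ max(1, Λ, sup |ω(0)|)`, and
the Beale-Kato-Majda integral is finite.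
(3) Let `0 < α < 1`. If `q + q^α (sup |ω|)^(1-α)` is integrable on `(0, T)`, `q > 0`, and for almost
every `t` some maximum point satisfies `Tame (u t) x a α (q t)` or `|ω(t, x)| ≤ Λ(t)` with an
increasing integrable `Λ ≥ 0`, the Beale-Kato-Majda integral is finite.
(4) This is so if `sup |ω| ≤ C (T - t)^(-m)` and, for `t` near `T`, some maximum point
satisfies `Tame (u t) x a α (k (T - t)^(-n))` or `|ω(t, x)| ≤ (T - t)^(-1/2)`, where
`n < 1` and `α n + (1 - α) m < 1`; for `m = 1` the last condition is `n < 1` again.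
(5) If `sup |ω| ≤ C / (T - t)` and, for `t` near `T`, some maximum point satisfies
`Tame (u t) x a α (ε / (T - t))` or `|ω(t, x)| ≤ (T - t)^(-1/2)`, where
`2 κ (ε + ε^α C^(1-α)) ≤ a α (1 - α)`, then `sup |ω| ≤ C' (T - t)^(-1/2)`, and the
Beale-Kato-Majda integral is finite. -/
theorem result : ∃ κ : ℝ, 0 < κ ∧
    ∀ (T : ℝ), 0 < T → ∀ (u : ℝ → V → V) (p : ℝ → V → ℝ), IsC2Solution T u p →
    ∀ a : ℝ, 0 < a → a ≤ 1 →
    (∀ t ∈ Ioo 0 T, ∀ x, IsMaxPt u t x → ∀ q : ℝ,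
      (Tame (u t) x a 1 q → ∀ δ : ℝ, 0 < δ → δ ≤ 1 →
        stretch (u t) x ≤ κ / a * (q * (1 + Real.log (1 / δ)) + δ * nrm (vort (u t) x))) ∧
      (∀ α : ℝ, 0 < α → α < 1 → 0 < q → vort (u t) x ≠ 0 → Tame (u t) x a α q →
        stretch (u t) x
          ≤ κ / (a * α * (1 - α)) * (q + q ^ α * nrm (vort (u t) x) ^ (1 - α)))) ∧
    (∀ (q : ℝ → ℝ) (Λ K : ℝ), IntegrableOn q (Ioo 0 T) → 1 ≤ K → Λ ≤ K →
      (∀ x, nrm (vort (u 0) x) ≤ K) →
      (∀ᵐ t, t ∈ Ioo 0 T → ∃ x, IsMaxPt u t x ∧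
        (Λ < nrm (vort (u t) x) → Tame (u t) x a 1 (q t))) →
      (∀ t ∈ Ioo 0 T, ∀ x, nrm (vort (u t) x)
        ≤ Real.exp ((2 + Real.log K) * Real.exp (κ / a * ∫ s in Ioo 0 t, (1 + |q s|)))) ∧
      BKMFinite T u) ∧
    (∀ (q Λ : ℝ → ℝ) (α : ℝ), 0 < α → α < 1 → (∀ t ∈ Ioo 0 T, 0 < q t) →
      IntegrableOn (fun t => q t + q t ^ α * vmax (u t) ^ (1 - α)) (Ioo 0 T) →
      MonotoneOn Λ (Ioo 0 T) → IntegrableOn Λ (Ioo 0 T) → (∀ t ∈ Ioo 0 T, 0 ≤ Λ t) →
      (∀ᵐ t, t ∈ Ioo 0 T → ∃ x, IsMaxPt u t x ∧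
        (Λ t < nrm (vort (u t) x) → Tame (u t) x a α (q t))) → BKMFinite T u) ∧
    (∀ C m k n α : ℝ, 0 < C → 0 < k → n < 1 → 0 < α → α < 1 → α * n + (1 - α) * m < 1 →
      (∀ᶠ t in 𝓝[<] T, vmax (u t) ≤ C * (T - t) ^ (-m)) →
      (∀ᶠ t in 𝓝[<] T, ∃ x, IsMaxPt u t x ∧
        ((T - t) ^ (-(1 / 2) : ℝ) < nrm (vort (u t) x) →
          Tame (u t) x a α (k * (T - t) ^ (-n)))) → BKMFinite T u) ∧
    (∀ C ε α : ℝ, 0 < C → 0 < ε → 0 < α → α < 1 →
      2 * κ * (ε + ε ^ α * C ^ (1 - α)) ≤ a * α * (1 - α) →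
      (∀ᶠ t in 𝓝[<] T, vmax (u t) ≤ C / (T - t)) →
      (∀ᶠ t in 𝓝[<] T, ∃ x, IsMaxPt u t x ∧
        (1 / Real.sqrt (T - t) < nrm (vort (u t) x) → Tame (u t) x a α (ε / (T - t)))) →
      (∃ C' : ℝ, ∀ᶠ t in 𝓝[<] T, ∀ x, nrm (vort (u t) x) ≤ C' / Real.sqrt (T - t)) ∧
        BKMFinite T u) := by
  refine ⟨Kve, Kve_pos, fun T hT u p h a ha ha1 => ⟨?_, ?_, ?_, ?_, ?_⟩⟩
  · intro t ht x hx q
    refine ⟨?_, ?_⟩
    · rintro ⟨ρ, hρ, hb⟩ δ hδ hδ1
      exact max_one h ht hx hρ ha ha1 hb hδ hδ1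
    · rintro α hα hα1 hq hne ⟨ρ, hρ, hb⟩
      have hM : 0 < nrm (vort (u t) x) :=
        lt_of_le_of_ne (nrm_nonneg _) fun h0 => hne (nrm_eq_zero h0.symm)
      exact max_hol h ht hx hρ ha ha1 hα hα1 hq hM hb
  · intro q Λ K hq hK1 hKΛ hK0 hyp
    exact osgood h ha ha1 hq hK1 hKΛ hK0 hyp
  · intro q Λ α hα hα1 hq0 hq hΛ hΛi hΛ0 hyp
    exact hol_int h ha ha1 hα hα1 hq0 hq hΛ hΛi hΛ0 hyp
  · intro C m k n α hC hk hn hα hα1 hmn hM hyp
    exact hol_rates hT h ha ha1 hα hα1 hC hk hn hmn hM hyp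
  · intro C ε α hC hε hα hα1 hth hM hyp
    refine hol_type_one hT h ha ha1 hα hα1 hC hε ?_ hM hyp
    have hβ : 0 < 1 - α := by linarith
    rw [div_mul_eq_mul_div, div_le_one (by positivity)]
    exact hth

end Pool.Agent.Results.MP_b0497c_an.TwistVelocity
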